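import Pool.Agent.R982.TC.B4
import Pool.Agent.R982.TC.Mono
import Pool.Agent.R982.TC.Graph
import Pool.Agent.R982.TC.Design

/-!
# MP_3e3c2c_co: monochromatic tree covers of edge-coloured dense graphs

Disproof of Q1: there is an absolute constant `c > 0` such that for every fixed `δ ∈ (0,1)` and all
sufficiently large `r` one has `tc_r(δ) ≥ c r²`; in particular no constant `K` satisfies
`tc_r(δ) ≤ K r ⌈r / log (1/δ)⌉` for all `r ≥ 2` and `δ ∈ (0,1)`.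
-/

open Finset Filter
open scoped ENNReal

namespace Pool.Agent.Results.MP_3e3c2c_co.TreeCoverQuadratic

open Pool.Agent.R982.TC

lemma core (lam : ℕ) (hlam : 1 ≤ lam) : ∃ N0 : ℕ, ∀ p : ℕ, p.Prime → N0 ≤ p →
    ∀ δ : ℝ, 0 < δ → δ < 1 → 2 < δ * (lam : ℝ) →
      ((4 * p ^ 2 + 1 : ℕ) : ℕ∞) ≤ tcr (64 * p + 1) δ := by
  obtain ⟨ε, hε, N1, hproc⟩ := Process.process_ok lam hlam
  obtain ⟨N2, hdes⟩ := Design.design_ok lam ε hε
  refine ⟨max N1 N2, ?_⟩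
  intro p hp hpN δ hδ hδ1 hlamδ
  have : Fact p.Prime := ⟨hp⟩
  have hcard : Fintype.card (ZMod p) = p := ZMod.card p
  obtain ⟨π, hπ⟩ := hdes p (le_trans (le_max_right _ _) hpN)
  have h1 := hproc (ZMod p) (by rw [hcard]; exact le_trans (le_max_left _ _) hpN) π hπ
  have h2 := Graph.graph_ok (64 * Fintype.card (ZMod p)) (4 * (Fintype.card (ZMod p)) ^ 2)
    (2 * Fintype.card (ZMod p)) (Fin lam × ZMod p) (ZMod p)
    (fun j v => (π j v.1).symm v.2) δ hδ hδ1 (by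
      rw [Fintype.card_prod, Fintype.card_fin, hcard]
      push_cast
      have hp0 : (0 : ℝ) < (p : ℝ) := by exact_mod_cast hp.pos
      nlinarith) h1
  rw [hcard] at h2
  exact h2

lemma lower : ∀ δ : ℝ, 0 < δ → δ < 1 → ∀ᶠ r : ℕ in atTop,
    ENNReal.ofReal (1 / 4096 * (r : ℝ) ^ 2) ≤ ((tcr r δ : ℕ∞) : ℝ≥0∞) := by
  intro δ hδ hδ1
  obtain ⟨lam, hlam⟩ := exists_nat_gt (2 / δ)
  have hlam2 : 2 < δ * (lam : ℝ) := by
    rw [div_lt_iff₀ hδ] at hlam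
    linarith
  have hlam1 : 1 ≤ lam := by
    by_contra hcon
    have : lam = 0 := by omega
    rw [this] at hlam2
    norm_num at hlam2
  obtain ⟨N0, hN0⟩ := core lam hlam1
  filter_upwards [eventually_ge_atTop (128 * (N0 + 1) + 1)] with r hr
  obtain ⟨m, hm⟩ : ∃ m : ℕ, m = (r - 1) / 128 := ⟨_, rfl⟩
  have hm1 : N0 + 1 ≤ m := by omega
  obtain ⟨p, hp, hmp, hp2⟩ := Nat.exists_prime_lt_and_le_two_mul m (by omega)
  have h1 := hN0 p hp (by omega) δ hδ hδ1 hlam2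
  have h2 := Mono.mono_ok (64 * p + 1) r δ (by omega) (by omega)
  have h3 : ((4 * p ^ 2 + 1 : ℕ) : ℕ∞) ≤ tcr r δ := h1.trans h2
  have h4 : (((4 * p ^ 2 + 1 : ℕ) : ℕ∞) : ℝ≥0∞) ≤ ((tcr r δ : ℕ∞) : ℝ≥0∞) := by
    exact_mod_cast h3
  refine le_trans ?_ h4
  have h5 : r ≤ 128 * p := by omega
  have h6 : (r : ℝ) ≤ 128 * (p : ℝ) := by exact_mod_cast h5
  have h7 : 1 / 4096 * (r : ℝ) ^ 2 ≤ ((4 * p ^ 2 + 1 : ℕ) : ℝ) := by
    push_cast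
    have h8 : (0 : ℝ) ≤ (r : ℝ) := Nat.cast_nonneg _
    nlinarith
  calc ENNReal.ofReal (1 / 4096 * (r : ℝ) ^ 2) ≤ ENNReal.ofReal ((4 * p ^ 2 + 1 : ℕ) : ℝ) :=
        ENNReal.ofReal_le_ofReal h7
    _ = ((4 * p ^ 2 + 1 : ℕ) : ℝ≥0∞) := ENNReal.ofReal_natCast _
    _ = _ := by simp

/-- **Disproof of Q1.** There is an absolute constant `c > 0` such that for every `δ ∈ (0,1)` one
has `tc_r(δ) ≥ c r²` for all sufficiently large `r`; and there is no constant `K > 0` with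
`tc_r(δ) ≤ K r ⌈r / log (1/δ)⌉` for all `r ≥ 2`, `δ ∈ (0,1)`. -/
theorem result :
    (∃ c : ℝ, 0 < c ∧ ∀ δ : ℝ, 0 < δ → δ < 1 → ∀ᶠ r : ℕ in atTop,
      ENNReal.ofReal (c * (r : ℝ) ^ 2) ≤ ((tcr r δ : ℕ∞) : ℝ≥0∞)) ∧
    ¬ Q1 := by
  refine ⟨⟨1 / 4096, by norm_num, lower⟩, ?_⟩
  rintro ⟨K, hK, hQ⟩
  obtain ⟨L, hL⟩ : ∃ L : ℝ, L = 16384 * K := ⟨_, rfl⟩
  have hLpos : 0 < L := by rw [hL]; positivity
  obtain ⟨δ, hδe⟩ : ∃ δ : ℝ, δ = Real.exp (-L) := ⟨_, rfl⟩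
  have hδ : 0 < δ := by rw [hδe]; exact Real.exp_pos _
  have hδ1 : δ < 1 := by rw [hδe, Real.exp_lt_one_iff]; linarith
  have hlog : Real.log (1 / δ) = L := by
    rw [hδe, one_div, ← Real.exp_neg, neg_neg, Real.log_exp]
  obtain ⟨R, hR⟩ := exists_nat_gt (16384 * K)
  have hev := (lower δ hδ hδ1).and (eventually_ge_atTop (max R 2))
  obtain ⟨r, hr1, hr2⟩ := hev.exists
  have hr3 : R ≤ r := le_trans (le_max_left _ _) hr2
  have hr4 : 2 ≤ r := le_trans (le_max_right _ _) hr2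
  have h1 := hQ r hr4 δ hδ hδ1
  rw [hlog] at h1
  have h2 := hr1.trans h1
  have hrpos : (0 : ℝ) < (r : ℝ) := by
    have : 0 < r := by omega
    exact_mod_cast this
  have hrK : 16384 * K < (r : ℝ) := lt_of_lt_of_le hR (by exact_mod_cast hr3)
  have hceil : (((⌈(r : ℝ) / L⌉ : ℤ)) : ℝ) ≤ (r : ℝ) / L + 1 := (Int.ceil_lt_add_one _).le
  have h3 : K * (r : ℝ) * ((⌈(r : ℝ) / L⌉ : ℤ) : ℝ) < 1 / 4096 * (r : ℝ) ^ 2 := by
    have h4 : K * (r : ℝ) * ((⌈(r : ℝ) / L⌉ : ℤ) : ℝ) ≤ K * (r : ℝ) * ((r : ℝ) / L + 1) :=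
      mul_le_mul_of_nonneg_left hceil (by positivity)
    have h5 : K * (r : ℝ) * ((r : ℝ) / L + 1) = (r : ℝ) ^ 2 / 16384 + K * (r : ℝ) := by
      rw [hL]
      field_simp
    rw [h5] at h4
    nlinarith
  have hpos : 0 < 1 / 4096 * (r : ℝ) ^ 2 := by positivity
  have h6 : ENNReal.ofReal (K * (r : ℝ) * ((⌈(r : ℝ) / L⌉ : ℤ) : ℝ)) <
      ENNReal.ofReal (1 / 4096 * (r : ℝ) ^ 2) := (ENNReal.ofReal_lt_ofReal_iff hpos).2 h3
  exact absurd h2 (not_le.2 h6)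

end Pool.Agent.Results.MP_3e3c2c_co.TreeCoverQuadratic
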